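import Pool.Agent.W153.Haj.Gen

set_option autoImplicit false

namespace Pool.Agent.W153.Haj

theorem blt_iff {a b : ℕ} : Nat.blt a b = true ↔ a < b := by
  rw [Nat.blt_eq]

open SimpleGraph

/-- Adjacency read off a bit matrix. -/
def adjM (N M : Nat) (x y : Nat) : Bool := Nat.testBit M (N * x + y)

def allN (N : Nat) (p : Nat → Bool) : Bool := (List.range N).all p

theorem allN_iff {N : Nat} {p : Nat → Bool} : allN N p = true ↔ ∀ x < N, p x = true := by
  simp [allN]

/-- symmetric, irreflexive, no isolated vertices -/
def checkBase (N M : Nat) : Bool :=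
  allN N (fun x => !(adjM N M x x)) &&
  allN N (fun x => allN N (fun y => adjM N M x y == adjM N M y x)) &&
  allN N (fun x => (List.range N).any (fun y => adjM N M x y))

def gr (N M : Nat) (h : checkBase N M = true) : SimpleGraph (Fin N) where
  Adj x y := adjM N M x y = true
  symm := ⟨fun x y hxy => by
    simp only [checkBase, Bool.and_eq_true, allN_iff] at h
    have := h.1.2 x.1 x.2 y.1 y.2
    rw [beq_iff_eq] at this
    rw [← this]; exact hxy⟩
  loopless := ⟨fun x hx => by
    simp only [checkBase, Bool.and_eq_true, allN_iff] at h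
    have := h.1.1 x.1 x.2
    rw [hx] at this
    exact Bool.noConfusion this⟩

theorem gr_adj {N M : Nat} {h : checkBase N M = true} {x y : Fin N} :
    (gr N M h).Adj x y ↔ adjM N M x y = true := Iff.rfl

/-- colour of `x` in the colouring coded by `c` -/
def colr (c x : Nat) : Nat := Nat.shiftRight c (3 * x) % 8

def entE (N K M : Nat) (e : Nat × Nat × Nat) : Bool :=
  allN N (fun x => Nat.blt (colr e.2.2 x) K) &&
  allN N (fun x => allN N (fun y => !(adjM N M x y) || (x == e.1 && y == e.2.1) ||
    (x == e.2.1 && y == e.1) || !(colr e.2.2 x == colr e.2.2 y)))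

def checkE (N K M : Nat) (T : List (Nat × Nat × Nat)) : Bool :=
  T.all (entE N K M) &&
  allN N (fun u => allN N (fun v => !(adjM N M u v) || !(Nat.blt u v) ||
    T.any (fun e => e.1 == u && e.2.1 == v)))

def entU (N K M : Nat) (e : Nat × Nat × Nat × Nat) : Bool :=
  allN N (fun x => Nat.blt (colr e.2.2.2 x) K) &&
  allN N (fun x => (x == e.1) || allN N (fun y => !(adjM N M x y) || (y == e.1) ||
    !(colr e.2.2.2 x == colr e.2.2.2 y))) &&
  allN N (fun c => !(adjM N M e.1 c) ||
    (((c == e.2.1) || !(colr e.2.2.2 c == colr e.2.2.2 e.2.1)) &&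
     ((c == e.2.2.1) || !(colr e.2.2.2 c == colr e.2.2.2 e.2.2.1))))

def checkU (N K M : Nat) (T : List (Nat × Nat × Nat × Nat)) : Bool :=
  T.all (entU N K M) &&
  allN N (fun z => allN N (fun a => !(adjM N M z a) || allN N (fun b => !(adjM N M z b) ||
    !(Nat.blt a b) || T.any (fun e => e.1 == z && e.2.1 == a && e.2.2.1 == b))))

/-- is there a walk with at most `f` steps from `x` to `b`, avoiding `w` and the edge `ab`? -/
def reach (N M w a b : Nat) : Nat → Nat → Bool
  | 0, x => x == b
  | f + 1, x => (x == b) || (List.range N).any (fun y => adjM N M x y && !(y == w) &&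
      !((x == a && y == b) || (x == b && y == a)) && reach N M w a b f y)

def checkConn (N M : Nat) : Bool :=
  allN N (fun a => allN N (fun b => !(adjM N M a b) || !(Nat.blt a b) || allN N (fun w =>
    (a == w) || (b == w) || reach N M w a b 4 a)))

def okAux (adj : Nat → Nat → Bool) (v c : Nat) : List Nat → Bool
  | [] => true
  | d :: ds => (!(d == c) || !(adj v ds.length)) && okAux adj v c ds

def dfs (adj : Nat → Nat → Bool) (K : Nat) : Nat → List Nat → Bool
  | 0, _ => false
  | f + 1, cs => (List.range K).all (fun c => !(okAux adj cs.length c cs) || dfs adj K f (c :: cs))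

/-- no independent set of `m` vertices extends the decreasing list of vertices (all new vertices
are larger) -/
def noInd (adj : Nat → Nat → Bool) (N : Nat) : Nat → List Nat → Bool
  | 0, _ => false
  | m + 1, L => (List.range N).all (fun x => L.any (fun y => adj y x || !(Nat.blt y x)) ||
      noInd adj N m (x :: L))

theorem dfs_sound {adj : Nat → Nat → Bool} {K : Nat} (φ : Nat → Nat) (N : Nat)
    (hK : ∀ x < N, φ x < K) (hφ : ∀ x < N, ∀ y < N, adj x y = true → φ x ≠ φ y) :
    ∀ (f v : Nat), v + f = N → dfs adj K f (((List.range v).map φ).reverse) = false := by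
  intro f
  induction f with
  | zero => intro v _; rfl
  | succ f ih =>
    intro v hv
    rw [Bool.eq_false_iff]
    intro h
    simp only [dfs, List.all_eq_true, List.mem_range] at h
    have h1 := h (φ v) (hK v (by omega))
    have hok : ∀ (w : Nat), w ≤ v →
        okAux adj v (φ v) (((List.range w).map φ).reverse) = true := by
      intro w
      induction w with
      | zero => intro _; rfl
      | succ w ihw =>
        intro hw
        rw [List.range_succ, List.map_append, List.reverse_append]
        simp only [List.map_cons, List.map_nil, List.reverse_cons, List.reverse_nil,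
          List.nil_append, List.singleton_append, okAux, Bool.and_eq_true]
        refine ⟨?_, ihw (by omega)⟩
        simp only [List.length_reverse, List.length_map, List.length_range, Bool.or_eq_true,
          Bool.not_eq_true', beq_eq_false_iff_ne, ne_eq]
        by_cases hc : φ w = φ v
        · right
          by_contra hadj
          rw [Bool.not_eq_false] at hadj
          exact hφ v (by omega) w (by omega) hadj hc.symm
        · exact Or.inl hc
    rw [show (((List.range v).map φ).reverse).length = v by simp, hok v le_rfl] at h1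
    simp only [Bool.not_true, Bool.false_or] at h1
    have h2 := ih (v + 1) (by omega)
    rw [List.range_succ, List.map_append, List.reverse_append] at h2
    simp only [List.map_cons, List.map_nil, List.reverse_cons, List.reverse_nil,
      List.nil_append, List.singleton_append] at h2
    rw [h1] at h2
    exact Bool.noConfusion h2

theorem not_colorable_of_dfs {N M K : Nat} {hB : checkBase N M = true}
    (h : dfs (adjM N M) K N [] = true) : ¬ (gr N M hB).Colorable K := by
  rintro ⟨C⟩
  have := dfs_sound (adj := adjM N M) (K := K)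
    (fun x => if hx : x < N then (C ⟨x, hx⟩ : Nat) else 0) N
    (by intro x hx; simp only [dif_pos hx]; exact (C ⟨x, hx⟩).2)
    (by
      intro x hx y hy hxy
      simp only [dif_pos hx, dif_pos hy]
      intro h
      exact C.valid (v := ⟨x, hx⟩) (w := ⟨y, hy⟩) hxy (Fin.ext h)) N 0 (by simp)
  simp only [List.range_zero, List.map_nil, List.reverse_nil] at this
  rw [h] at this
  exact Bool.noConfusion this

theorem noInd_sound {adj : Nat → Nat → Bool} {N : Nat} :
    ∀ (m : Nat) (g : Fin m → Nat) (L : List Nat), noInd adj N m L = true →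
      (∀ i, g i < N) → StrictMono g → (∀ i, ∀ y ∈ L, y < g i) →
      (∀ i, ∀ y ∈ L, adj y (g i) = false) → (∀ i j, i < j → adj (g i) (g j) = false) → False := by
  intro m
  induction m with
  | zero => intro g L h; simp [noInd] at h
  | succ m ih =>
    intro g L h hN hmono hL hadj hpair
    simp only [noInd, List.all_eq_true, List.mem_range, Bool.or_eq_true, List.any_eq_true,
      Bool.not_eq_true'] at h
    rcases h (g 0) (hN 0) with ⟨y, hy, h1 | h1⟩ | h1
    · rw [hadj 0 y hy] at h1; exact Bool.noConfusion h1
    · have := hL 0 y hy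
      rw [Bool.eq_false_iff] at h1
      exact h1 (blt_iff.2 this)
    · refine ih (fun i => g i.succ) (g 0 :: L) h1 (fun i => hN _)
        (fun i j hij => hmono (Fin.succ_lt_succ_iff.2 hij)) ?_ ?_ ?_
      · intro i y hy
        rcases List.mem_cons.1 hy with rfl | hy
        · exact hmono (Fin.succ_pos i)
        · exact hL _ y hy
      · intro i y hy
        rcases List.mem_cons.1 hy with rfl | hy
        · exact hpair 0 i.succ (Fin.succ_pos i)
        · exact hadj _ y hy
      · intro i j hij
        exact hpair _ _ (Fin.succ_lt_succ_iff.2 hij)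

theorem not_colorable_of_noInd {N M K m : Nat} {hB : checkBase N M = true}
    (h : noInd (adjM N M) N (m + 1) [] = true) (hKm : K * m < N) :
    ¬ (gr N M hB).Colorable K := by
  rintro ⟨C⟩
  obtain ⟨c, -, hc⟩ := Finset.exists_lt_card_fiber_of_mul_lt_card_of_maps_to
    (s := (Finset.univ : Finset (Fin N))) (t := (Finset.univ : Finset (Fin K)))
    (f := fun x => C x) (n := m) (fun _ _ => Finset.mem_univ _) (by simpa using hKm)
  obtain ⟨t, ht, htc⟩ := Finset.exists_subset_card_eq (Nat.succ_le_of_lt hc)
  let g := t.orderEmbOfFin htc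
  have hg : ∀ i, C (g i) = c := by
    intro i
    have := ht (t.orderEmbOfFin_mem htc i)
    simpa using this
  refine noInd_sound (m + 1) (fun i => (g i : Nat)) [] h (fun i => (g i).2)
    (fun i j hij => g.strictMono hij) (by simp) (by simp) ?_
  intro i j hij
  rw [Bool.eq_false_iff]
  intro hadj
  exact C.valid (v := g i) (w := g j) hadj ((hg i).trans (hg j).symm)

theorem good_of_checks {N K M : Nat} {hB : checkBase N M = true} {TE : List (Nat × Nat × Nat)}
    {TU : List (Nat × Nat × Nat × Nat)} (hK : 1 ≤ K) (hN : K + 1 < N)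
    (hnc : ¬ (gr N M hB).Colorable K) (hE : checkE N K M TE = true)
    (hU : checkU N K M TU = true) (hC : checkConn N M = true) : Good K (gr N M hB) := by
  have hB' := hB
  simp only [checkBase, Bool.and_eq_true, allN_iff, List.any_eq_true, List.mem_range] at hB'
  have nbr : ∀ u, ∃ v, (gr N M hB).Adj u v := by
    intro u
    obtain ⟨v, hv, huv⟩ := hB'.2 u.1 u.2
    exact ⟨⟨v, hv⟩, huv⟩
  have edge' : ∀ u v, (gr N M hB).Adj u v → u < v → ∃ φ : Fin N → Fin K,
      ∀ x y, (gr N M hB).Adj x y → ¬ (x = u ∧ y = v) → ¬ (x = v ∧ y = u) → φ x ≠ φ y := by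
    intro u v huv hlt
    simp only [checkE, Bool.and_eq_true, allN_iff, List.all_eq_true] at hE
    have h1 := hE.2 u.1 u.2 v.1 v.2
    rw [gr_adj.1 huv, show Nat.blt u.1 v.1 = true from blt_iff.2 hlt] at h1
    simp only [Bool.not_true, Bool.false_or, List.any_eq_true, Bool.and_eq_true, beq_iff_eq] at h1
    obtain ⟨e, he, h2, h3⟩ := h1
    have h4 := hE.1 e he
    simp only [entE, Bool.and_eq_true, allN_iff] at h4
    obtain ⟨h5, h6⟩ := h4
    refine ⟨fun x => ⟨colr e.2.2 x, blt_iff.1 (h5 x.1 x.2)⟩, ?_⟩
    intro x y hxy n1 n2 h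
    have h7 := h6 x.1 x.2 y.1 y.2
    rw [gr_adj.1 hxy, h2, h3] at h7
    have h8 : colr e.2.2 x = colr e.2.2 y := by simpa using h
    simp only [Bool.not_true, Bool.false_or, Bool.or_eq_true, Bool.and_eq_true, beq_iff_eq,
      h8, beq_self_eq_true, Bool.false_eq_true, or_false] at h7
    rcases h7 with ⟨p, q⟩ | ⟨p, q⟩
    · exact n1 ⟨Fin.ext p, Fin.ext q⟩
    · exact n2 ⟨Fin.ext p, Fin.ext q⟩
  have edge : ∀ u v, (gr N M hB).Adj u v → ∃ φ : Fin N → Fin K,
      ∀ x y, (gr N M hB).Adj x y → ¬ (x = u ∧ y = v) → ¬ (x = v ∧ y = u) → φ x ≠ φ y := by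
    intro u v huv
    rcases lt_trichotomy u v with h | h | h
    · exact edge' u v huv h
    · subst h; exact absurd huv ((gr N M hB).loopless.irrefl _)
    · obtain ⟨φ, hφ⟩ := edge' v u huv.symm h
      exact ⟨φ, fun x y hxy n1 n2 => hφ x y hxy n2 n1⟩
  refine ⟨hK, by omega, ?_, hnc, nbr, edge, ?_, ?_⟩
  · -- colouring with one more colour
    have hN0 : 0 < N := by omega
    obtain ⟨v, hv⟩ := nbr ⟨0, hN0⟩
    obtain ⟨φ, hφ⟩ := edge ⟨0, hN0⟩ v hv
    refine ⟨Coloring.mk (fun x => if x = ⟨0, hN0⟩ then Fin.last K else (φ x).castSucc) ?_⟩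
    intro x y hxy
    by_cases hx : x = ⟨0, hN0⟩
    · have hy : y ≠ ⟨0, hN0⟩ := fun h => by
        rw [hx, h] at hxy; exact (gr N M hB).loopless.irrefl _ hxy
      simp only [hx, hy, if_true, if_false]
      exact (Fin.castSucc_lt_last _).ne'
    · by_cases hy : y = ⟨0, hN0⟩
      · simp only [hx, hy, if_true, if_false]
        exact (Fin.castSucc_lt_last _).ne
      · simp only [hx, hy, if_false]
        intro h
        exact hφ x y hxy (fun h => hx h.1) (fun h => hy h.2) (Fin.castSucc_injective _ h)
  · -- property U
    have U' : ∀ z a b, a < b → (gr N M hB).Adj z a → (gr N M hB).Adj z b →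
      ∃ φ : Fin N → Fin K, (∀ x y, x ≠ z → y ≠ z → (gr N M hB).Adj x y → φ x ≠ φ y) ∧
        (∀ c, (gr N M hB).Adj z c → c ≠ a → φ c ≠ φ a) ∧
        (∀ c, (gr N M hB).Adj z c → c ≠ b → φ c ≠ φ b) := by
      intro z a b hab ha hb
      simp only [checkU, Bool.and_eq_true, allN_iff, List.all_eq_true] at hU
      have h1 := hU.2 z.1 z.2 a.1 a.2
      rw [gr_adj.1 ha] at h1
      simp only [Bool.not_true, Bool.false_or, allN_iff] at h1
      have h1 := h1 b.1 b.2
      rw [gr_adj.1 hb, show Nat.blt a.1 b.1 = true from blt_iff.2 hab] at h1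
      simp only [Bool.not_true, Bool.false_or, List.any_eq_true, Bool.and_eq_true,
        beq_iff_eq] at h1
      obtain ⟨e, he, ⟨h2, h3⟩, h4⟩ := h1
      have h5 := hU.1 e he
      simp only [entU, Bool.and_eq_true, allN_iff] at h5
      obtain ⟨⟨h6, h7⟩, h8⟩ := h5
      refine ⟨fun x => ⟨colr e.2.2.2 x, blt_iff.1 (h6 x.1 x.2)⟩, ?_, ?_, ?_⟩
      · intro x y hx hy hxy h
        have h9 := h7 x.1 x.2
        have hx' : (x.1 == e.1) = false := by
          rw [beq_eq_false_iff_ne, h2]; exact fun h => hx (Fin.ext h)
        rw [hx', Bool.false_or, allN_iff] at h9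
        have h10 := h9 y.1 y.2
        have hy' : (y.1 == e.1) = false := by
          rw [beq_eq_false_iff_ne, h2]; exact fun h => hy (Fin.ext h)
        have hc : colr e.2.2.2 x = colr e.2.2.2 y := by simpa using h
        rw [hy', gr_adj.1 hxy, hc] at h10
        simp at h10
      · intro c hc hca h
        have h9 := h8 c.1 c.2
        rw [h2, gr_adj.1 hc] at h9
        have hc' : (c.1 == e.2.1) = false := by
          rw [beq_eq_false_iff_ne, h3]; exact fun h => hca (Fin.ext h)
        have hcc : colr e.2.2.2 c = colr e.2.2.2 a := by simpa using h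
        rw [hc', hcc, h3] at h9
        simp at h9
      · intro c hc hcb h
        have h9 := h8 c.1 c.2
        rw [h2, gr_adj.1 hc] at h9
        have hc' : (c.1 == e.2.2.1) = false := by
          rw [beq_eq_false_iff_ne, h4]; exact fun h => hcb (Fin.ext h)
        have hcc : colr e.2.2.2 c = colr e.2.2.2 b := by simpa using h
        rw [hc', hcc, h4] at h9
        simp at h9
    intro z a b hab ha hb
    rcases lt_or_gt_of_ne hab with h | h
    · exact U' z a b h ha hb
    · obtain ⟨φ, h1, h2, h3⟩ := U' z b a h hb ha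
      exact ⟨φ, h1, h3, h2⟩
  · -- connectivity
    have C' : ∀ (w a b : Fin N), a ≠ w → b ≠ w → (gr N M hB).Adj a b → a < b →
        ∀ s : Fin N → Prop,
        (∀ x y, x ≠ w → y ≠ w → (gr N M hB).Adj x y → ¬ (x = a ∧ y = b) →
          ¬ (x = b ∧ y = a) → (s x ↔ s y)) → (s a ↔ s b) := by
      intro w a b haw hbw hab hlt s hs
      simp only [checkConn, allN_iff] at hC
      have h1 := hC a.1 a.2 b.1 b.2
      rw [gr_adj.1 hab, show Nat.blt a.1 b.1 = true from blt_iff.2 hlt] at h1
      simp only [Bool.not_true, Bool.false_or, allN_iff] at h1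
      have h2 := h1 w.1 w.2
      have e1 : (a.1 == w.1) = false := by
        rw [beq_eq_false_iff_ne]; exact fun h => haw (Fin.ext h)
      have e2 : (b.1 == w.1) = false := by
        rw [beq_eq_false_iff_ne]; exact fun h => hbw (Fin.ext h)
      rw [e1, e2, Bool.false_or, Bool.false_or] at h2
      have key : ∀ (f : Nat) (x : Fin N), x ≠ w → reach N M w a b f x = true → (s x ↔ s b) := by
        intro f
        induction f with
        | zero =>
          intro x _ hx
          simp only [reach, beq_iff_eq] at hx
          rw [Fin.ext hx]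
        | succ f ih =>
          intro x hxw hx
          simp only [reach, Bool.or_eq_true, beq_iff_eq, List.any_eq_true, List.mem_range,
            Bool.and_eq_true, Bool.not_eq_true', beq_eq_false_iff_ne, ne_eq] at hx
          rcases hx with hx | ⟨y, hy, ⟨⟨h3, h4⟩, h5⟩, h6⟩
          · rw [Fin.ext hx]
          · have hyw : (⟨y, hy⟩ : Fin N) ≠ w := fun h => h4 (by rw [← h])
            rw [← ih ⟨y, hy⟩ hyw h6]
            rw [Bool.or_eq_false_iff] at h5
            refine hs x ⟨y, hy⟩ hxw hyw h3 ?_ ?_
            · rintro ⟨p, q⟩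
              have h7 := h5.1
              rw [← q, p] at h7
              simp at h7
            · rintro ⟨p, q⟩
              have h7 := h5.2
              rw [← q, p] at h7
              simp at h7
      exact key 4 a haw h2
    intro w a b haw hbw hab s hs
    rcases lt_trichotomy a b with h | h | h
    · exact C' w a b haw hbw hab h s hs
    · rw [h]
    · exact (C' w b a hbw haw hab.symm h s (fun x y hx hy hxy n1 n2 => hs x y hx hy hxy n2 n1)).symm

end Pool.Agent.W153.Haj
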