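import Mathlib

/-!
# Critical graphs and Hajós constructions

All graphs are finite, on vertex sets `Fin n`.
-/

set_option autoImplicit false

namespace Pool.Agent.W153.Haj

/-- `G` is `k`-critical: its chromatic number is `k` and every proper subgraph of `G` has chromatic
number less than `k`. -/
def IsCritical (k : ℕ) {n : ℕ} (G : SimpleGraph (Fin n)) : Prop :=
  G.chromaticNumber = k ∧ ∀ H : G.Subgraph, H ≠ ⊤ → H.coe.chromaticNumber < k

/-- `H` is (a copy of) the graph obtained from `G` by identifying the two non-adjacent vertices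
`u ≠ v`, multiple edges being replaced by single edges: there is a surjection `f` from the vertices of
`G` to those of `H` which identifies `u` with `v` and no other pair, and two vertices of `H` are
adjacent if and only if they have adjacent preimages. -/
def IsIdentification {n m : ℕ} (G : SimpleGraph (Fin n)) (H : SimpleGraph (Fin m)) : Prop :=
  ∃ (u v : Fin n) (f : Fin n → Fin m), u ≠ v ∧ ¬ G.Adj u v ∧ Function.Surjective f ∧
    (∀ x y, f x = f y ↔ (x = y ∨ (x = u ∧ y = v) ∨ (x = v ∧ y = u))) ∧
    (∀ p q, H.Adj p q ↔ ∃ x y, G.Adj x y ∧ f x = p ∧ f y = q)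

/-- `H` is (a copy of) the graph obtained from disjoint copies of `G1` and `G2` by Hajós'
construction with the edges `x1 y1` and `x2 y2`: these two edges are deleted, `x1` is identified with
`x2`, and the edge `y1 y2` is added. The maps `f1`, `f2` send the vertices of `G1` and `G2` to
vertices of `H`. -/
def IsHajosJoin {a b m : ℕ} (G1 : SimpleGraph (Fin a)) (G2 : SimpleGraph (Fin b))
    (H : SimpleGraph (Fin m)) : Prop :=
  ∃ (x1 y1 : Fin a) (x2 y2 : Fin b) (f1 : Fin a → Fin m) (f2 : Fin b → Fin m),
    G1.Adj x1 y1 ∧ G2.Adj x2 y2 ∧ Function.Injective f1 ∧ Function.Injective f2 ∧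
    (∀ i j, f1 i = f2 j ↔ (i = x1 ∧ j = x2)) ∧
    (∀ p, (∃ i, f1 i = p) ∨ ∃ j, f2 j = p) ∧
    (∀ p q, H.Adj p q ↔
      ((∃ i j, G1.Adj i j ∧ s(i, j) ≠ s(x1, y1) ∧ f1 i = p ∧ f1 j = q) ∨
       (∃ i j, G2.Adj i j ∧ s(i, j) ≠ s(x2, y2) ∧ f2 i = p ∧ f2 j = q) ∨
       s(p, q) = s(f1 y1, f2 y2)))

/-- The graphs that occur in constructions from copies of `K_k` by Hajós' construction and by
identification of two non-adjacent vertices in which every graph is `k`-critical. -/
inductive CritConstructible (k : ℕ) : (n : ℕ) → SimpleGraph (Fin n) → Prop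
  | base (n : ℕ) (G : SimpleGraph (Fin n)) :
      Nonempty (G ≃g (⊤ : SimpleGraph (Fin k))) → CritConstructible k n G
  | hajos (a b m : ℕ) (G1 : SimpleGraph (Fin a)) (G2 : SimpleGraph (Fin b))
      (H : SimpleGraph (Fin m)) : CritConstructible k a G1 → CritConstructible k b G2 →
      IsHajosJoin G1 G2 H → IsCritical k H → CritConstructible k m H
  | ident (n m : ℕ) (G : SimpleGraph (Fin n)) (H : SimpleGraph (Fin m)) :
      CritConstructible k n G → IsIdentification G H → IsCritical k H → CritConstructible k m H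

end Pool.Agent.W153.Haj
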