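import Pool.Agent.W153.Haj.Defs

set_option autoImplicit false

namespace Pool.Agent.W153.Haj

open SimpleGraph

/-- The properties of a graph used in the argument. -/
structure Good (K : ℕ) {N : ℕ} (G : SimpleGraph (Fin N)) : Prop where
  pos : 1 ≤ K
  size : N ≠ K + 1
  col : G.Colorable (K + 1)
  ncol : ¬ G.Colorable K
  nbr : ∀ u, ∃ v, G.Adj u v
  edge : ∀ u v, G.Adj u v → ∃ φ : Fin N → Fin K,
    ∀ x y, G.Adj x y → ¬ (x = u ∧ y = v) → ¬ (x = v ∧ y = u) → φ x ≠ φ y
  U : ∀ z a b, a ≠ b → G.Adj z a → G.Adj z b →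
    ∃ φ : Fin N → Fin K, (∀ x y, x ≠ z → y ≠ z → G.Adj x y → φ x ≠ φ y) ∧
      (∀ c, G.Adj z c → c ≠ a → φ c ≠ φ a) ∧ (∀ c, G.Adj z c → c ≠ b → φ c ≠ φ b)
  conn : ∀ (w a b : Fin N), a ≠ w → b ≠ w → G.Adj a b → ∀ s : Fin N → Prop,
    (∀ x y, x ≠ w → y ≠ w → G.Adj x y → ¬ (x = a ∧ y = b) → ¬ (x = b ∧ y = a) → (s x ↔ s y)) →
    (s a ↔ s b)

theorem critical_of {K n : ℕ} (G : SimpleGraph (Fin n)) (col : G.Colorable (K + 1))
    (ncol : ¬ G.Colorable K) (nbr : ∀ u, ∃ v, G.Adj u v)
    (edge : ∀ u v, G.Adj u v → ∃ φ : Fin n → Fin K,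
      ∀ x y, G.Adj x y → ¬ (x = u ∧ y = v) → ¬ (x = v ∧ y = u) → φ x ≠ φ y) :
    IsCritical (K + 1) G := by
  constructor
  · apply le_antisymm
    · exact col.chromaticNumber_le
    · by_contra h
      push Not at h
      apply ncol
      rw [← chromaticNumber_le_iff_colorable]
      have : G.chromaticNumber < ((K : ℕ∞) + 1) := by exact_mod_cast h
      exact Order.le_of_lt_add_one this
  · intro H hH
    -- `H` misses an edge
    have hmiss : ∃ u v, G.Adj u v ∧ ¬ H.Adj u v := by
      by_contra hcon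
      push Not at hcon
      apply hH
      rw [Subgraph.ext_iff]
      refine ⟨?_, ?_⟩
      · ext x
        simp only [Subgraph.verts_top, Set.mem_univ, iff_true]
        obtain ⟨y, hy⟩ := nbr x
        exact (hcon x y hy).fst_mem
      · ext x y
        simp only [Subgraph.top_adj]
        exact ⟨fun h => h.adj_sub, fun h => hcon x y h⟩
    obtain ⟨u, v, huv, huv'⟩ := hmiss
    obtain ⟨φ, hφ⟩ := edge u v huv
    have : H.coe.Colorable K := by
      refine ⟨Coloring.mk (fun x => φ x.1) ?_⟩
      intro x y hxy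
      have h1 : H.Adj x.1 y.1 := hxy
      refine hφ _ _ h1.adj_sub ?_ ?_
      · rintro ⟨h2, h3⟩; rw [h2, h3] at h1; exact huv' h1
      · rintro ⟨h2, h3⟩; rw [h2, h3] at h1; exact huv' h1.symm
    calc H.coe.chromaticNumber ≤ K := this.chromaticNumber_le
      _ < ((K + 1 : ℕ) : ℕ∞) := by exact_mod_cast Nat.lt_succ_self K

theorem IsCritical.not_colorable {K n : ℕ} {G : SimpleGraph (Fin n)} (h : IsCritical (K + 1) G) :
    ¬ G.Colorable K := by
  intro hc
  have h1 := hc.chromaticNumber_le
  rw [h.1] at h1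
  have h2 : K + 1 ≤ K := by exact_mod_cast h1
  omega

theorem IsCritical.vertex {K n : ℕ} (hK : 1 ≤ K) {G : SimpleGraph (Fin n)}
    (h : IsCritical (K + 1) G) (v : Fin n) :
    ∃ C : Fin n → Fin K, ∀ x y, x ≠ v → y ≠ v → G.Adj x y → C x ≠ C y := by
  have h1 := h.2 ((⊤ : G.Subgraph).deleteVerts {v}) (by
    intro h2
    have : v ∈ ((⊤ : G.Subgraph).deleteVerts {v}).verts := by rw [h2]; simp
    simp at this)
  have h3 : ((⊤ : G.Subgraph).deleteVerts {v}).coe.Colorable K := by
    rw [← chromaticNumber_le_iff_colorable]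
    have : ((⊤ : G.Subgraph).deleteVerts {v}).coe.chromaticNumber < ((K : ℕ∞) + 1) := by
      exact_mod_cast h1
    exact Order.le_of_lt_add_one this
  obtain ⟨C⟩ := h3
  classical
  refine ⟨fun x => if hx : x ∈ ((⊤ : G.Subgraph).deleteVerts {v}).verts then C ⟨x, hx⟩
    else ⟨0, hK⟩, ?_⟩
  intro x y hx hy hxy
  have hx' : x ∈ ((⊤ : G.Subgraph).deleteVerts {v}).verts := by simp [hx]
  have hy' : y ∈ ((⊤ : G.Subgraph).deleteVerts {v}).verts := by simp [hy]
  simp only [dif_pos hx', dif_pos hy']
  apply C.valid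
  simp only [Subgraph.coe_adj, Subgraph.deleteVerts_adj]
  simp [hx, hy, hxy]

theorem top_critical (K : ℕ) (hK : 1 ≤ K) : IsCritical (K + 1) (⊤ : SimpleGraph (Fin (K + 1))) := by
  apply critical_of
  · exact ⟨Coloring.mk (fun x => x) (fun {x y} h => h.ne)⟩
  · intro h
    obtain ⟨C⟩ := h
    have hinj : Function.Injective C := by
      intro x y hxy
      by_contra hne
      exact C.valid (v := x) (w := y) (by simpa using hne) hxy
    have := Fintype.card_le_of_injective _ hinj
    simp at this
  · intro u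
    have : Nontrivial (Fin (K + 1)) := Fin.nontrivial_iff_two_le.mpr (by omega)
    obtain ⟨v, hv⟩ := exists_ne u
    exact ⟨v, by simpa using hv.symm⟩
  · intro u v huv
    have huv' : u ≠ v := by simpa using huv
    let e := (finSuccAboveEquiv u).symm
    refine ⟨fun x => if hx : x = u then e ⟨v, huv'.symm⟩ else e ⟨x, hx⟩, ?_⟩
    intro x y hxy h1 h2
    have hxy' : x ≠ y := by simpa using hxy
    by_cases hx : x = u
    · subst hx
      have hy : y ≠ x := hxy'.symm
      simp only [dif_pos, dif_neg hy]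
      intro h
      have := e.injective h
      rw [Subtype.mk.injEq] at this
      exact h1 ⟨rfl, this.symm⟩
    · by_cases hy : y = u
      · subst hy
        simp only [dif_pos, dif_neg hx]
        intro h
        have := e.injective h
        rw [Subtype.mk.injEq] at this
        exact h2 ⟨this, rfl⟩
      · simp only [dif_neg hx, dif_neg hy]
        intro h
        have := e.injective h
        rw [Subtype.mk.injEq] at this
        exact hxy' this

theorem IsCritical.of_iso {k n m : ℕ} {G : SimpleGraph (Fin n)} {H : SimpleGraph (Fin m)}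
    (e : G ≃g H) (h : IsCritical k H) : IsCritical k G := by
  have hn : n = m := by
    have := Fintype.card_congr e.toEquiv
    simpa using this
  subst hn
  constructor
  · rw [← h.1]
    exact le_antisymm (chromaticNumber_mono_of_hom e.toHom)
      (chromaticNumber_mono_of_hom e.symm.toHom)
  · intro S hS
    have h1 := h.2 (S.map e.toHom) (by
      intro h2
      apply hS
      rw [Subgraph.ext_iff] at h2 ⊢
      obtain ⟨h3, h4⟩ := h2
      refine ⟨?_, ?_⟩
      · ext x
        simp only [Subgraph.verts_top, Set.mem_univ, iff_true]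
        have : e x ∈ (S.map e.toHom).verts := by rw [h3]; simp
        simp only [Subgraph.map_verts, Set.mem_image] at this
        obtain ⟨y, hy, hxy⟩ := this
        rw [e.injective hxy] at hy
        exact hy
      · ext x y
        simp only [Subgraph.top_adj]
        refine ⟨fun h => h.adj_sub, fun h => ?_⟩
        have : (S.map e.toHom).Adj (e x) (e y) := by
          rw [h4]; exact e.map_rel_iff.2 h
        simp only [Subgraph.map_adj, Relation.Map] at this
        obtain ⟨x', y', hxy, hx, hy⟩ := this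
        rw [e.injective hx, e.injective hy] at hxy
        exact hxy)
    refine lt_of_le_of_lt ?_ h1
    apply chromaticNumber_mono_of_hom
    exact ⟨fun x => ⟨e x.1, ⟨x.1, x.2, rfl⟩⟩, fun {x y} hxy => ⟨x.1, y.1, hxy, rfl, rfl⟩⟩

theorem CritConstructible.critical {K : ℕ} (hK : 1 ≤ K) {n : ℕ} {G : SimpleGraph (Fin n)}
    (h : CritConstructible (K + 1) n G) : IsCritical (K + 1) G := by
  cases h with
  | base _ _ h =>
    obtain ⟨e⟩ := h
    exact (top_critical K hK).of_iso e
  | hajos _ _ _ _ _ _ _ _ _ h => exact h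
  | ident _ _ _ _ _ _ h => exact h

end Pool.Agent.W153.Haj
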