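import Pool.Agent.W153.Haj.Gen

set_option autoImplicit false

namespace Pool.Agent.W153.Haj

open SimpleGraph

/-- A good graph is not obtained by identification of two vertices of a critical graph. -/
theorem Good.ident {K N n m : ℕ} {G0 : SimpleGraph (Fin N)} (g0 : Good K G0)
    (G : SimpleGraph (Fin n)) (H : SimpleGraph (Fin m))
    (hG : IsCritical (K + 1) G) (hHK : ¬ H.Colorable K)
    (hI : IsIdentification G H) (e : H ≃g G0) : False := by
  obtain ⟨u, v, f, huv, hadj, -, hf, hH⟩ := hI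
  have hfuv : f u = f v := (hf u v).2 (Or.inr (Or.inl ⟨rfl, rfl⟩))
  have hfu : ∀ x, f x = f u → x = u ∨ x = v := by
    intro x hx
    rcases (hf x u).1 hx with h | ⟨h, -⟩ | ⟨h, -⟩
    · exact Or.inl h
    · exact Or.inl h
    · exact Or.inr h
  have full : ∀ u v : Fin n, u ≠ v →
      (∀ x y, f x = f y ↔ (x = y ∨ (x = u ∧ y = v) ∨ (x = v ∧ y = u))) →
      (∀ p, H.Adj (f u) p → ∃ x, G.Adj u x ∧ f x = p) → False := by
    intro u v huv hf hall
    obtain ⟨C, hC⟩ := hG.vertex g0.pos v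
    apply hHK
    have hfuv : f u = f v := (hf u v).2 (Or.inr (Or.inl ⟨rfl, rfl⟩))
    classical
    let g : Fin m → Fin K := fun p =>
      if h : ∃ x, x ≠ v ∧ f x = p then C h.choose else ⟨0, g0.pos⟩
    have hg : ∀ x, x ≠ v → g (f x) = C x := by
      intro x hx
      have h : ∃ x', x' ≠ v ∧ f x' = f x := ⟨x, hx, rfl⟩
      have : g (f x) = C h.choose := by simp only [g]; rw [dif_pos h]
      rw [this]
      have h2 := h.choose_spec
      rcases (hf _ _).1 h2.2 with h3 | ⟨h3, h4⟩ | ⟨h3, h4⟩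
      · rw [h3]
      · exact absurd h4 hx
      · exact absurd h3 h2.1
    refine ⟨SimpleGraph.Coloring.mk g ?_⟩
    intro p q hpq hpq'
    have hedge : ∃ x y, x ≠ v ∧ y ≠ v ∧ G.Adj x y ∧ f x = p ∧ f y = q := by
      obtain ⟨x, y, hxy, hx, hy⟩ := (hH p q).1 hpq
      by_cases hxv : x = v
      · rw [hxv] at hx
        have : H.Adj (f u) q := by rw [hfuv, hx]; exact hpq
        obtain ⟨y', hy1, hy2⟩ := hall q this
        refine ⟨u, y', huv, ?_, hy1, hfuv.trans hx, hy2⟩
        intro hy'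
        rw [hy'] at hy2
        rw [← hx, ← hy2] at hpq
        exact H.loopless.irrefl _ hpq
      · by_cases hyv : y = v
        · rw [hyv] at hy
          have : H.Adj (f u) p := by rw [hfuv, hy]; exact hpq.symm
          obtain ⟨x', hx1, hx2⟩ := hall p this
          refine ⟨x', u, ?_, huv, hx1.symm, hx2, hfuv.trans hy⟩
          intro hx'
          rw [hx'] at hx2
          rw [← hy, ← hx2] at hpq
          exact H.loopless.irrefl _ hpq
        · exact ⟨x, y, hxv, hyv, hxy, hx, hy⟩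
    obtain ⟨x, y, hxv, hyv, hxy, hx, hy⟩ := hedge
    rw [← hx, ← hy, hg x hxv, hg y hyv] at hpq'
    exact hC x y hxv hyv hxy hpq'
  by_cases hA : ∀ p, H.Adj (f u) p → ∃ x, G.Adj u x ∧ f x = p
  · exact full u v huv hf hA
  by_cases hB : ∀ p, H.Adj (f v) p → ∃ x, G.Adj v x ∧ f x = p
  · refine full v u huv.symm ?_ hB
    intro x y
    rw [hf x y]
    constructor
    · rintro (h | h | h)
      · exact Or.inl h
      · exact Or.inr (Or.inr h)
      · exact Or.inr (Or.inl h)
    · rintro (h | h | h)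
      · exact Or.inl h
      · exact Or.inr (Or.inr h)
      · exact Or.inr (Or.inl h)
  push Not at hA hB
  obtain ⟨a, ha, ha'⟩ := hA
  obtain ⟨b, hb, hb'⟩ := hB
  rw [← hfuv] at hb
  have nbr : ∀ p, H.Adj (f u) p → (∃ x, G.Adj u x ∧ f x = p) ∨ (∃ x, G.Adj v x ∧ f x = p) := by
    intro p hp
    obtain ⟨x, y, hxy, hx, hy⟩ := (hH _ _).1 hp
    rcases hfu x hx with h | h
    · rw [h] at hxy; exact Or.inl ⟨y, hxy, hy⟩
    · rw [h] at hxy; exact Or.inr ⟨y, hxy, hy⟩
  have hab : a ≠ b := by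
    intro hab
    rw [← hab] at hb'
    rcases nbr a ha with ⟨x, hx, hxa⟩ | ⟨x, hx, hxa⟩
    · exact ha' x hx hxa
    · exact hb' x hx hxa
  obtain ⟨φ, hφ, hφa, hφb⟩ := g0.U (e (f u)) (e a) (e b) (fun h => hab (e.injective h))
    (e.map_rel_iff.2 ha) (e.map_rel_iff.2 hb)
  apply hG.not_colorable
  classical
  refine ⟨SimpleGraph.Coloring.mk
    (fun x => if x = u then φ (e a) else if x = v then φ (e b) else φ (e (f x))) ?_⟩
  -- neighbours of u
  have nu : ∀ y, G.Adj u y → φ (e (f y)) ≠ φ (e a) := by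
    intro y hy
    refine hφa _ (e.map_rel_iff.2 ((hH _ _).2 ⟨u, y, hy, rfl, rfl⟩)) ?_
    intro h
    exact ha' y hy (e.injective h)
  have nv : ∀ y, G.Adj v y → φ (e (f y)) ≠ φ (e b) := by
    intro y hy
    refine hφb _ (e.map_rel_iff.2 ((hH _ _).2 ⟨v, y, hy, hfuv.symm, rfl⟩)) ?_
    intro h
    exact hb' y hy (e.injective h)
  have hvu : v ≠ u := huv.symm
  intro x y hxy
  by_cases hxu : x = u
  · have hyu : y ≠ u := fun h => by rw [hxu, h] at hxy; exact G.loopless.irrefl _ hxy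
    have hyv : y ≠ v := fun h => by rw [hxu, h] at hxy; exact hadj hxy
    rw [hxu] at hxy
    simp only [hxu, hyu, hyv, if_true, if_false]
    exact (nu y hxy).symm
  · by_cases hyu : y = u
    · have hxv : x ≠ v := fun h => by rw [hyu, h] at hxy; exact hadj hxy.symm
      rw [hyu] at hxy
      simp only [hyu, hxu, hxv, if_true, if_false]
      exact nu x hxy.symm
    · by_cases hxv : x = v
      · have hyv : y ≠ v := fun h => by rw [hxv, h] at hxy; exact G.loopless.irrefl _ hxy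
        rw [hxv] at hxy
        simp only [hxv, hvu, hyv, hyu, if_true, if_false]
        exact (nv y hxy).symm
      · by_cases hyv : y = v
        · rw [hyv] at hxy
          simp only [hyv, hxu, hxv, hvu, if_true, if_false]
          exact nv x hxy.symm
        · simp only [hxu, hxv, hyu, hyv, if_false]
          refine hφ _ _ ?_ ?_ (e.map_rel_iff.2 ((hH _ _).2 ⟨x, y, hxy, rfl, rfl⟩))
          · intro h
            rcases hfu x (e.injective h) with h | h
            · exact hxu h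
            · exact hxv h
          · intro h
            rcases hfu y (e.injective h) with h | h
            · exact hyu h
            · exact hyv h

/-- A good graph is not a Hajós join. -/
theorem Good.hajos {K N a b m : ℕ} {G0 : SimpleGraph (Fin N)} (g0 : Good K G0)
    (G1 : SimpleGraph (Fin a)) (G2 : SimpleGraph (Fin b))
    (H : SimpleGraph (Fin m)) (hJ : IsHajosJoin G1 G2 H) (e : H ≃g G0) : False := by
  obtain ⟨x1, y1, x2, y2, f1, f2, h1, h2, hf1, hf2, hf, hcov, hH⟩ := hJ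
  have hw : f1 x1 = f2 x2 := (hf _ _).2 ⟨rfl, rfl⟩
  have hy1 : y1 ≠ x1 := h1.ne'
  have hy2 : y2 ≠ x2 := h2.ne'
  -- edges between the two sides
  have cross : ∀ i j, i ≠ x1 → j ≠ x2 → H.Adj (f1 i) (f2 j) → i = y1 ∧ j = y2 := by
    intro i j hi hj h
    rcases (hH _ _).1 h with ⟨i', j', -, -, -, h'⟩ | ⟨i', j', -, -, h', -⟩ | h'
    · exact absurd ((hf _ _).1 h').2 hj
    · exact absurd ((hf _ _).1 h'.symm).1 hi
    · rcases Sym2.eq_iff.1 h' with ⟨h3, h4⟩ | ⟨h3, h4⟩
      · exact ⟨hf1 h3, hf2 h4⟩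
      · exact absurd ((hf _ _).1 h3).1 hi
  have hn1 : f1 y1 ≠ f1 x1 := fun h => hy1 (hf1 h)
  have hn2 : f2 y2 ≠ f1 x1 := fun h => hy2 (hf2 (h.trans hw))
  have hadj : H.Adj (f1 y1) (f2 y2) := (hH _ _).2 (Or.inr (Or.inr rfl))
  have hno : ¬ ∃ i, f1 i = f2 y2 := by
    rintro ⟨i, hi⟩
    exact hy2 ((hf _ _).1 hi).2
  -- the side predicate
  have key := g0.conn (e (f1 x1)) (e (f1 y1)) (e (f2 y2)) (fun h => hn1 (e.injective h))
    (fun h => hn2 (e.injective h)) (e.map_rel_iff.2 hadj) (fun p => ∃ i, e (f1 i) = p) ?_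
  · obtain ⟨i, hi⟩ := key.1 ⟨y1, rfl⟩
    exact hno ⟨i, e.injective hi⟩
  · -- transport to `H`
    have main : ∀ p q : Fin m, p ≠ f1 x1 → q ≠ f1 x1 → H.Adj p q →
        ¬ (p = f1 y1 ∧ q = f2 y2) → ¬ (p = f2 y2 ∧ q = f1 y1) →
        (∃ i, f1 i = p) → ∃ i, f1 i = q := by
      intro p q hp hq hpq hn hn' hi
      obtain ⟨i, hi⟩ := hi
      rcases hcov q with h | ⟨j, hj⟩
      · exact h
      · exfalso
        have hi' : i ≠ x1 := fun h => hp (by rw [← hi, h])
        have hj' : j ≠ x2 := fun h => hq (by rw [← hj, h, hw])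
        rw [← hi, ← hj] at hpq
        obtain ⟨h3, h4⟩ := cross i j hi' hj' hpq
        exact hn ⟨by rw [← hi, h3], by rw [← hj, h4]⟩
    intro x y hx hy hxy hn hn'
    obtain ⟨p, rfl⟩ := e.surjective x
    obtain ⟨q, rfl⟩ := e.surjective y
    have hp : p ≠ f1 x1 := fun h => hx (by rw [h])
    have hq : q ≠ f1 x1 := fun h => hy (by rw [h])
    have hpq : H.Adj p q := e.map_rel_iff.1 hxy
    have c1 : ¬ (p = f1 y1 ∧ q = f2 y2) := fun h => hn ⟨by rw [h.1], by rw [h.2]⟩
    have c2 : ¬ (p = f2 y2 ∧ q = f1 y1) := fun h => hn' ⟨by rw [h.1], by rw [h.2]⟩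
    constructor
    · rintro ⟨i, hi⟩
      obtain ⟨j, hj⟩ := main p q hp hq hpq c1 c2 ⟨i, e.injective hi⟩
      exact ⟨j, by rw [hj]⟩
    · rintro ⟨i, hi⟩
      obtain ⟨j, hj⟩ := main q p hq hp hpq.symm (fun h => c2 ⟨h.2, h.1⟩)
        (fun h => c1 ⟨h.2, h.1⟩) ⟨i, e.injective hi⟩
      exact ⟨j, by rw [hj]⟩

theorem Good.critical {K N : ℕ} {G0 : SimpleGraph (Fin N)} (g0 : Good K G0) :
    IsCritical (K + 1) G0 := critical_of G0 g0.col g0.ncol g0.nbr g0.edge

/-- A good graph does not occur in a construction through critical graphs. -/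
theorem Good.not_constructible {K N : ℕ} {G0 : SimpleGraph (Fin N)} (g0 : Good K G0)
    {m : ℕ} {H : SimpleGraph (Fin m)} (h : CritConstructible (K + 1) m H) :
    IsEmpty (H ≃g G0) := by
  refine ⟨fun e => ?_⟩
  cases h with
  | base _ _ h =>
    obtain ⟨e'⟩ := h
    have h1 := Fintype.card_congr e.toEquiv
    have h2 := Fintype.card_congr e'.toEquiv
    simp only [Fintype.card_fin] at h1 h2
    exact g0.size (h1.symm.trans h2)
  | hajos a b _ G1 G2 _ _ _ hJ _ => exact g0.hajos G1 G2 H hJ e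
  | ident n _ G _ hG hI hc =>
    exact g0.ident G H (hG.critical g0.pos) hc.not_colorable hI e

end Pool.Agent.W153.Haj
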